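import Pool.Agent.N882.UE.ParDim

/-!
# MP_27fd67_ag: Parshin's conjecture in dimension at most `d` and bilinear equations

`T : Compact k` are data of rational motivic cohomology with compact supports
`C X i n = H^i_c(X, ℚ(n))` of the schemes `X` over the finite field `k`, `IsCompact T` lists the known
properties which are used, and `FT True X` means that `X` is separated and of finite type over `k`.

`Par T X`: `H^i_c(X, ℚ(n)) = 0` for all `n` and all `i < 2 n`, in other words, the rational `K`-groups with
compact supports `K^c_m(X) ⊗ ℚ = ⊕_n H^(2n-m)_c(X, ℚ(n))` are zero for all `m ≥ 1`; for smooth proper `X`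
these are the groups `K_m(X) ⊗ ℚ`.

`LikeSpace T X D`: for `i ≤ 2 n` the groups `H^i_c(X, ℚ(n))` are zero for `(i, n) ≠ (2 D, D)`, and the
dimension of `H^(2D)_c(X, ℚ(D))` is at most one (as for the affine space of dimension `D`).

`bilS t` is the closed subscheme of the affine space of dimension `a + b` given by the `c` bilinear
equations `∑ t_ijl x_i y_j = 0`, and `hypS t` is the smooth affine cubic hypersurface
`∑ t_ijl x_i y_j z_l = 1`.
-/

set_option autoImplicit false

open CategoryTheory AlgebraicGeometry Pool.Agent.Y116.UV Pool.Agent.N882.UE Pool.Agent.Q282.UK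

namespace Pool.Agent.Results.MP_27fd67_ag.BilinearEquations

variable {k : Type} [Field k]

/-- Parshin's conjecture in dimension at most `d`: `K_m(X) ⊗ ℚ = 0` for `m ≥ 1` and all smooth proper
schemes `X` of dimension at most `d`. -/
def Parshin (T : Compact k) (d : ℕ) : Prop :=
  ∀ X : Sch k, Smooth X.hom → IsProper X.hom → topologicalKrullDim X.left ≤ d → Par T X

/-- `K^c_m(X) ⊗ ℚ = 0` for `m ≥ 1` and all separated schemes of finite type of dimension at most `d`. -/
def AllDim (T : Compact k) (d : ℕ) : Prop :=
  ∀ X : Sch k, FT True X → topologicalKrullDim X.left ≤ d → Par T X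

/-- The same for the smooth schemes. -/
def SmoothDim (T : Compact k) (d : ℕ) : Prop :=
  ∀ X : Sch k, FT True X → Smooth X.hom → topologicalKrullDim X.left ≤ d → Par T X

/-- `K^c_m(X) ⊗ ℚ = 0` for `m ≥ 1` and the systems `X` of bilinear equations such that there are at most
`r` variables `x` or at most `r` variables `y`. -/
def Variables (T : Compact k) (r : ℕ) : Prop :=
  ∀ (a b c : ℕ) (t : Fin a → Fin b → Fin c → k), (a ≤ r ∨ b ≤ r) → Par T (bilS t)

/-- `K^c_m(X) ⊗ ℚ = 0` for `m ≥ 1` and all systems `X` of at most `r` bilinear equations. -/
def Equations (T : Compact k) (r : ℕ) : Prop :=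
  ∀ (a b c : ℕ) (t : Fin a → Fin b → Fin c → k), c ≤ r → Par T (bilS t)

/-- `LikeSpace` for the hypersurfaces `t(x, y, z) = 1` of all trilinear forms such that one of the three
blocks of variables has at most `r` variables. -/
def Hypersurfaces (T : Compact k) (r : ℕ) : Prop :=
  ∀ (a b c : ℕ) (t : Fin a → Fin b → Fin c → k), (a ≤ r ∨ b ≤ r ∨ c ≤ r) →
    LikeSpace T (hypS t) ((a : ℤ) + b + c - 1)

/-- **Theorem.** Let `T` be rational motivic cohomology with compact supports of the schemes over the
finite field `k`. The vanishing is known in dimension at most one (`curves`), and it is known that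
Parshin's conjecture in dimension at most `d` implies the vanishing for all separated schemes of
dimension at most `d` (`reduction`).
(1) For every `d` the following are equivalent: Parshin's conjecture for the smooth proper schemes of
dimension at most `d`; the vanishing of `K^c_m(X) ⊗ ℚ`, `m ≥ 1`, for all separated schemes of dimension at
most `d`; for the smooth ones; for the systems of bilinear equations with at most `d + 2` variables in
one of the two blocks; for the systems of at most `d + 2` bilinear equations; `LikeSpace` for the smooth
hypersurfaces `t(x, y, z) = 1` of the trilinear forms with a block of at most `d + 2` variables.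
(2) `K^c_m(X) ⊗ ℚ = 0` for `m ≥ 1` is true for all systems of bilinear equations with at most three
variables in one of the two blocks (any number of variables in the other one, any number of equations),
and for all systems of at most three bilinear equations; `LikeSpace` is true for the hypersurfaces with
a block of at most three variables. -/
theorem result [Finite k] (T : Compact k) (hT : IsCompact T)
    (curves : AllDim T 1) (reduction : ∀ d, Parshin T d → AllDim T d) :
    (∀ d : ℕ, [Parshin T d, AllDim T d, SmoothDim T d, Variables T (d + 2), Equations T (d + 2),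
      Hypersurfaces T (d + 2)].TFAE) ∧
    Variables T 3 ∧ Equations T 3 ∧ Hypersurfaces T 3 := by
  have hW := wk_par hT
  have key : ∀ d : ℕ, [Parshin T d, AllDim T d, SmoothDim T d, Variables T (d + 2),
      Equations T (d + 2), Hypersurfaces T (d + 2)].TFAE := by
    intro d
    have h26 : AllDim T d ↔ Hypersurfaces T (d + 2) := (w_dim hW d).trans (like_iff hT (d + 2))
    tfae_have 1 → 2 := reduction d
    tfae_have 2 → 1 := fun h X _ hX hd => h X ⟨inferInstance, inferInstance,
      fun _ => inferInstance⟩ hd
    tfae_have 2 ↔ 3 := w_smooth hW d
    tfae_have 2 ↔ 6 := h26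
    tfae_have 4 → 2 := fun h => (w_dim hW d).mpr fun a b c t hb => h a b c t (Or.inr hb)
    tfae_have 6 → 4 := by
      intro h a b c t hm
      rw [par_hyp hT]
      rcases hm with hm | hm
      · exact h a b c t (Or.inl hm)
      · exact h a b c t (Or.inr (Or.inl hm))
    tfae_have 6 → 5 := by
      intro h a b c t hm
      rw [par_hyp hT]
      exact h a b c t (Or.inr (Or.inr hm))
    tfae_have 5 → 6 := by
      intro h a b c t hm
      refine of_second (Q := LikeSpace T) (fun e _ h => likeSpace_iso hT e h) ?_ t hm
      intro a b c t hb
      have h1 := (par_hyp hT (fun i l j => t i j l)).mp (h a c b _ hb)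
      have h2 := likeSpace_iso hT (Pool.Agent.Z125.UN.swapR t).symm h1
      rwa [show (a : ℤ) + c + b - 1 = (a : ℤ) + b + c - 1 by ring] at h2
    tfae_finish
  refine ⟨key, ?_, ?_, ?_⟩
  · exact ((key 1).out 1 3).mp curves
  · exact ((key 1).out 1 4).mp curves
  · exact ((key 1).out 1 5).mp curves

end Pool.Agent.Results.MP_27fd67_ag.BilinearEquations
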