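import Pool.Agent.N876.CG.Tower
import Pool.Agent.N876.CG.Alg
import Pool.Agent.W484.CK.Main

/-!
# Parshin's conjecture for products with cyclic coverings branched along hyperplanes

Let `κ` be a finite field with `q = c ^ f` elements, and `𝒱` a class of smooth projective varieties over
`κ`, closed under products, with Chow groups `A` with rational coefficients and a Weil cohomology theory
`H` (framework of helper492 and helper484: `TheoryData`, `IsChow`, `IsWeil`). Let `X_i` be varieties in
`𝒱`, of any dimensions `n_i`, which are models of cyclic coverings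

  `w ^ N_i = ∏ l_{i,k} (x) ^ a_{i,k}`

of projective spaces, branched along hyperplanes `l_{i,k} = 0` over `κ`, with exponents prime to `N_i`,
where `N_i` divides `q - 1` (`IsModel`, see the definitions: the cohomology is generated by the
classes of cycles and a part `T`, pure of weight `n_i`, without invariants under the covering
group, for which the trace formula holds). Let `N` be a common multiple of the `N_i`, and `λ` an
integer such that `IsSmall N λ` holds: for every nonempty finite set `I` of indices and all `j_i` not
divisible by `N_i` (`i ∈ I`) there is a `u` prime to `N` with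
`∑_{i ∈ I} weight X_i (u j_i) + λ / 2 < ∑_{i ∈ I} (n_i / 2 + 1)`; here `weight X j` is the mean over the
orbit `j, c j, …, c ^ (f - 1) j` of the sum of the fractional parts of `j a_k / N_i`.

Let `Z` be **any** variety in `𝒱` such that the eigenvalues of the Frobenius on the cohomology of `Z` are
algebraic numbers which satisfy the Riemann hypothesis, and such that
* either `λ = 0` and the cyclotomic polynomial of order `N` is irreducible over the field generated by
  these eigenvalues (for given `Z` this is true for all `N` prime to the discriminant of this field),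
* or `Z` is of level `≤ λ`: the numbers `q ^ λ b / b̄` are algebraic integers for all these eigenvalues
  `b`. This is true if `dim Z ≤ λ`.
Assume that homologically trivial self-correspondences of degree zero of the products of `Z` with `X_i`
are nilpotent; this holds if the motives are finite-dimensional in the sense of Kimura and
O'Sullivan, for example if `Z` is dominated by a product of curves and the `X_i` are curves or have
`n_i + 2` branch hyperplanes in general position (they are dominated by Fermat varieties).

Let `T` be a theory with rational coefficients on which correspondences act (`MotivicData`, `IsMotivic`)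
and on whose part `T^n(X)` the Frobenius endomorphism of `X` acts as multiplication by `q ^ n`. The
example for the question: a fixed number `m ≥ 1`, `T(X) = K_m(X) ⊗ ℚ` with its Adams decomposition
`T^n(X) = K_m(X)^(n)` (the Frobenius is the Adams operation `ψ^q`: Hiller, Kratzer, Soulé), which is the
higher Chow group `CH^n(X, m) ⊗ ℚ`. Let `G(X)` be abelian groups with `G(X) ⊗ ℚ = T(X)` (`IsKTheory`), for
example `G(X) = K_m(X)`.

**Theorem.** Let `V` be the product of `Z` and of finitely many of the `X_i` (pairwise different), and
`d = dim V - dim Z`.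
* **`K_m(V)` is a torsion group if and only if `K_m(Z)` is a torsion group.** So Parshin's conjecture
  for `V` is equivalent to Parshin's conjecture for `Z`, for each `m`.
* For every `n`, `K_m(V)^(n) = 0` if and only if `K_m(Z)^(l) = 0` for all `l` with `n - d ≤ l ≤ n`.
* If `V = X_i × V'`, then there are finitely many algebraic cycles `D j` on `X_i`, with classes that are
  linearly independent in the cohomology of `X_i` and which do not depend on `m` or `T`, such
  that `T^n(V) = ⨁ D j × T^(n - deg D j)(V')` for all `n` (Künneth formula).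

In particular `K_m(V)` is a torsion group for all `m ≥ 1` if `Z` is a curve (see the question), or a
variety dominated by products of curves for which the Tate conjecture holds (Soulé, Geisser, Kahn), for
example a product of elliptic curves (Spiess).

Examples. (a) Let `X_i` be curves `y ^ N_i = ∏ (x - x_{i,k})` with `N_i` factors, of genus
`(N_i - 1) (N_i - 2) / 2`, for different prime numbers `N_i` dividing `c - 1`. Then `weight X_i j` is the
residue of `j` modulo `N_i`, and `IsSmall N 0` holds for the product `N` of the `N_i` (take `u` with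
`u j_i = 1` modulo `N_i`). (b) Let `X` be the variety `w ^ N = l_1 ⋯ l_N` of dimension `n = N - 2`, with
`N` hyperplanes in general position, for a prime number `N` dividing `c - 1` (the resolutions are
Calabi-Yau varieties). The weight for `u j = 1` is `1`, so `IsSmall N λ` holds for all `λ < n`, that
is, **for all varieties `Z` of dimension smaller than `dim X`** (with a finite-dimensional motive)
Parshin's conjecture for `X × Z` is equivalent to the one for `Z`.

The proof: by the theorem of Stickelberger on Gauss sums and the product formula no product of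
eigenvalues of the Frobenius on the parts `T` of several `X_i` and on the cohomology of `Z` is a
power of `q`. So, by induction, the generalized eigenvectors of the Frobenius of `X_i × V'` for the
eigenvalues `q ^ n` are combinations of products of algebraic classes of `X_i` with classes of `V'`, and
the intersection pairing on the algebraic classes of `X_i` is not degenerate. Let `D j`, `E j` be
dual systems of cycles on `X_i` for this pairing, `p = ∑ E j × D j` the projector on `X_i × V'` and
`P` a polynomial which kills all other eigenvalues. The correspondence `(1 - p) P (F)` is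
homologically trivial, hence nilpotent; as it acts on `T^n(X_i × V')` as a nonzero multiple of the
idempotent `1 - p`, this idempotent is zero (the idea to play the eigenvalues of Frobenius off
against nilpotence is due to Soulé, Geisser and Kahn).

Purity, the trace formula and the decomposition of the cohomology of the `X_i` are hypotheses
(Deligne, Grothendieck). The result `MP_4960c7_ag.HyperplaneCoverings` is about the intersection
pairings in the same situation.

helper876; built on the library of the starting files (estimates of sums over hyperplane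
arrangements by Gauss sums: helper528 and helpers 800, 883, 135, 563, 271, 540, 400, 999, 782, 605,
346; traces on eigenspaces: helper117; correspondences, nilpotence and the Kunneth formula: helpers
484, 492, 550).
-/

set_option autoImplicit false

open Finset Polynomial CategoryTheory AlgebraicGeometry

namespace Pool.Agent.Results.MP_27fd67_ag.HyperplaneCoverings

open Pool.Agent.H914 Pool.Agent.H914.VarClass Pool.Agent.H914.VarClass.Obj Pool.Agent.W492.BB
  Pool.Agent.W484.CK

/-- A cyclic covering `w ^ N = ∏ l_k (x) ^ a_k` of the projective space of dimension `n`, and a root of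
unity `z`. -/
structure Covering (κ : Type) [Field κ] : Type where
  N : ℕ
  n : ℕ
  s : ℕ
  l : Fin s → Fin (n + 1) → κ
  a : Fin s → ℕ
  z : κ

/-- `z` has order `N ≥ 2`, the exponents are prime to `N` and their sum is divisible by `N`. -/
structure Covering.IsAdmissible {κ : Type} [Field κ] (X : Covering κ) : Prop where
  two_le : 2 ≤ X.N
  root : IsPrimitiveRoot X.z X.N
  coprime : ∀ k, (X.a k).Coprime X.N
  dvd : X.N ∣ ∑ k, X.a k

/-- The value of the form `∏ l_k ^ a_k` at a vector with coordinates in `L`. -/
def Covering.value {κ : Type} [Field κ] (X : Covering κ) (L : Type) [Field L] [Algebra κ L]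
    (x : Fin (X.n + 1) → L) : L :=
  ∏ k, (∑ t, algebraMap κ L (X.l k t) * x t) ^ X.a k

/-- The number of vectors over `L` where the form is not zero. -/
noncomputable def Covering.openCount {κ : Type} [Field κ] (X : Covering κ) (L : Type) [Field L]
    [Algebra κ L] : ℕ :=
  Set.ncard {x : Fin (X.n + 1) → L | X.value L x ≠ 0}

/-- The number of vectors over `L` where the form is not zero and its power with the exponent
`(|L| - 1) / N` is `z ^ i`. -/
noncomputable def Covering.fixCount {κ : Type} [Field κ] (X : Covering κ) (L : Type) [Field L]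
    [Fintype L] [Algebra κ L] (i : ℕ) : ℕ :=
  Set.ncard {x : Fin (X.n + 1) → L | X.value L x ≠ 0 ∧
    (X.value L x) ^ ((Fintype.card L - 1) / X.N) = algebraMap κ L X.z ^ i}

/-- `T` is the part without invariants of the cohomology of degree `n` of a smooth projective model
of the covering, with the Frobenius `Φ` and the generator `g` of the covering group. The trace
of `Φ ^ [L : κ] g ^ i` is up to the sign the difference of the number of fixed points over the open
set `∏ l_k ≠ 0` of projective space (`N` points over each point where the form has the power residue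
symbol `z ^ i`) and of the number of the points of this open set. -/
structure IsCyclicCovering {κ : Type} [Field κ] (X : Covering κ) {K T : Type} [Field K]
    [AddCommGroup T] [Module K T] (Φ g : Module.End K T) : Prop where
  commute : Commute Φ g
  order : g ^ X.N = 1
  invariants : ∀ t, g t = t → t = 0
  lefschetz : ∀ (L : Type) [Field L] [Fintype L] [Algebra κ L] (i : ℕ),
    ((Fintype.card L : K) - 1) *
        ((-1) ^ X.n * LinearMap.trace K T (Φ ^ Module.finrank κ L * g ^ i)) =
      (X.N : K) * (X.fixCount L i : K) - (X.openCount L : K)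

/-- The mean over `j, c j, …, c ^ (f - 1) j` of the sum of the fractional parts of `j a_k / N`. -/
def Covering.weight {κ : Type} [Field κ] (X : Covering κ) (c f j : ℕ) : ℚ :=
  (∑ k, ∑ t ∈ range f, (((j * X.a k * c ^ t) % X.N : ℕ) : ℚ)) / (f * X.N)

/-- The condition on the exponents. -/
def IsSmall {κ : Type} [Field κ] {ι : Type} (X : ι → Covering κ) (c f N lam : ℕ) : Prop :=
  ∀ I : Finset ι, I.Nonempty → ∀ j : ι → ℕ, (∀ i ∈ I, ¬ (X i).N ∣ j i) →
    ∃ u : ℕ, u.Coprime N ∧
      ∑ i ∈ I, (X i).weight c f (u * j i) + (lam : ℚ) / 2 < ∑ i ∈ I, (((X i).n : ℚ) / 2 + 1)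

/-- The space `H` is generated by the subspace `P` (the classes of algebraic cycles) and a subspace `T`
which is stable under `Φ` (the Frobenius) and `g` (a generator of the covering group), `T` is the part
without invariants (`IsCyclicCovering`), and pure of weight `n`. The complex numbers enter by an
embedding `τ` of the coefficient field. -/
def IsCoveringCohomology {κ : Type} [Field κ] [Fintype κ] (C : Covering κ) {K H : Type} [Field K]
    [AddCommGroup H] [Module K H] (P : Submodule K H) (Φ g : Module.End K H) (τ : K →+* ℂ) : Prop :=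
  ∃ (T : Submodule K H) (hΦ : ∀ t ∈ T, Φ t ∈ T) (hg : ∀ t ∈ T, g t ∈ T), P ⊔ T = ⊤ ∧
    IsCyclicCovering C (Φ.restrict hΦ) (g.restrict hg) ∧
    ∀ α, Module.End.HasEigenvalue (Φ.restrict hΦ) α → ‖τ α‖ ^ 2 = (Fintype.card κ : ℝ) ^ C.n

/-- The images of the eigenvalues of `Φ` under the embedding `τ` of the coefficient field. -/
def eigenvalues {K H : Type} [Field K] [AddCommGroup H] [Module K H] (Φ : Module.End K H)
    (τ : K →+* ℂ) : Set ℂ :=
  {b | ∃ β : K, Φ.HasEigenvalue β ∧ τ β = b}

/-- The conditions on the set `B` of the eigenvalues of the Frobenius on the cohomology of `Z`: the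
Riemann hypothesis, and either `lam = 0` and the cyclotomic polynomial of order `N` is irreducible
over the field generated by `B`, or `Z` is of level at most `lam`. -/
def IsGoodBase (q N lam : ℕ) (B : Set ℂ) : Prop :=
  (∀ b ∈ B, IsAlgebraic ℚ b ∧ ∃ j : ℕ, ‖b‖ ^ 2 = (q : ℝ) ^ j) ∧
    ((lam = 0 ∧ Irreducible (cyclotomic N (IntermediateField.adjoin ℚ B))) ∨
      ∀ b ∈ B, IsIntegral ℤ ((q : ℂ) ^ lam * b / starRingEnd ℂ b))

/-- An endomorphism of an algebra as a linear map. -/
def ofHom {K H : Type} [Field K] [Ring H] [Algebra K H] (g : H →ₐ[K] H) : Module.End K H :=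
  g.toLinearMap

/-- `IsCoveringCohomology` for endomorphisms of an algebra. -/
def IsCoveringAlgebra {κ : Type} [Field κ] [Fintype κ] (C : Covering κ) {K H : Type} [Field K]
    [Ring H] [Algebra K H] (P : Submodule K H) (φ g : H →ₐ[K] H) (τ : K →+* ℂ) : Prop :=
  IsCoveringCohomology C P (ofHom φ) (ofHom g) τ

/-- The images of the eigenvalues of an endomorphism of an algebra. -/
def eigenvaluesOf {K H : Type} [Field K] [Ring H] [Algebra K H] (φ : H →ₐ[K] H) (τ : K →+* ℂ) :
    Set ℂ :=
  eigenvalues (ofHom φ) τ

/-- The field `κ` has `c ^ f` elements, the coverings are admissible, `N` is a common multiple of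
their degrees, and `IsSmall` holds. -/
structure IsSmallSystem {κ : Type} [Field κ] [Fintype κ] {ι : Type} (C : ι → Covering κ)
    (c f N lam : ℕ) : Prop where
  card : Fintype.card κ = c ^ f
  admissible : ∀ i, (C i).IsAdmissible
  pos : 0 < N
  dvd : ∀ i, (C i).N ∣ N
  small : IsSmall C c f N lam

section geometry

variable {κ : Type} [Field κ] {𝒱 : VarClass κ} {A : TheoryData.{0, 0, 0} 𝒱 ℚ} {K : Type} [Field K]

/-- The span of the classes of cycles on `X`. -/
def cycleSpan (H : WeilTheoryData.{0, 0, 0} A K) (X : 𝒱.Obj) : Submodule K (H.A X) :=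
  Submodule.span K {a | ∃ (i : ℕ) (z : A.A X), A.Deg i z ∧ a = H.cl z}

/-- `X`, with the Frobenius endomorphism `φ`, is a model of the covering `C`, with a generator `g` of
the covering group. -/
def IsModel [Fintype κ] (C : Covering κ) (H : WeilTheoryData.{0, 0, 0} A K) {X : 𝒱.Obj}
    (φ : X ⟶ X) (τ : K →+* ℂ) : Prop :=
  ∃ g : X ⟶ X, IsCoveringAlgebra C (cycleSpan H X) (H.pull φ) (H.pull g) τ

/-- There is a divisor on `X` whose power with the exponent `dim X` is not zero in the cohomology. -/
def IsPolarized (H : WeilTheoryData.{0, 0, 0} A K) (X : 𝒱.Obj) : Prop :=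
  ∃ D : A.A X, A.Deg 1 D ∧ H.cl D ^ X.dim ≠ 0

/-- The product `X i₁ × (X i₂ × (⋯ × Z))`. -/
noncomputable def productOf {ι : Type} (X : ι → 𝒱.Obj) (Z : 𝒱.Obj) : List ι → 𝒱.Obj
  | [] => Z
  | i :: L => (X i).prod (productOf X Z L)

/-- The sum of the dimensions of the `X i`. -/
def dimension {ι : Type} (X : ι → 𝒱.Obj) : List ι → ℕ
  | [] => 0
  | i :: L => (X i).dim + dimension X L

/-- `F` is the Frobenius endomorphism of the varieties over `κ`, the varieties `X i` are models of the
coverings, the variety `Z` satisfies `IsGoodBase`, and homologically trivial correspondences on the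
products are nilpotent. -/
structure IsCoveringSystem [Fintype κ] {ι : Type} (C : ι → Covering κ) (N lam : ℕ)
    (H : WeilTheoryData.{0, 0, 0} A K) (τ : K →+* ℂ) (F : ∀ X : 𝒱.Obj, X ⟶ X) (X : ι → 𝒱.Obj)
    (Z : 𝒱.Obj) : Prop where
  standard : IsStandard H
  frobenius : ∀ X, IsFrobenius A (F X) (Fintype.card κ)
  product : ∀ X Y, F (X.prod Y) = prodMap (F X) (F Y)
  model : ∀ i, IsModel (C i) H (F (X i)) τ
  polarized : ∀ i, IsPolarized H (X i)
  base : IsGoodBase (Fintype.card κ) N lam (eigenvaluesOf (H.pull (F Z)) τ)
  nilpotence : ∀ L : List ι, Nilpotence H (productOf X Z L)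

/-- `T` is a theory with rational coefficients on which correspondences act, and the Frobenius
endomorphism `F X` acts on `T^n(X)` as multiplication by `q ^ n`. -/
structure IsFrobeniusTheory (T : MotivicData A) (F : ∀ X : 𝒱.Obj, X ⟶ X) (q : ℕ) : Prop where
  motivic : IsMotivic T
  power : ∀ X, ActsAsPower T (F X) q

/-- `G(X) ⊗ ℚ = T(X)`: there are homomorphisms `r` from `G(X)` to `T(X)` whose kernels consist of
torsion elements and such that every element of `T(X)` has a multiple in the image; and `T(X)` is
the sum of the subspaces `T^n(X)`. -/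
structure IsKTheory (T : MotivicData A) (G : 𝒱.Obj → Type) [∀ X, AddCommGroup (G X)] : Prop where
  rational : ∀ X, ∃ r : G X →+ T.M X, (∀ x, r x = 0 → IsOfFinAddOrder x) ∧
    ∀ t : T.M X, ∃ (n : ℕ) (x : G X), 0 < n ∧ r x = n • t
  adams : ∀ X, ⨆ n, T.gr X n = ⊤

/-- All elements of the group are of finite order. -/
def IsTorsionGroup (G : Type) [AddCommGroup G] : Prop := ∀ x : G, IsOfFinAddOrder x

/-- `T^n(X) = 0`. -/
def VanishesIn (T : MotivicData A) (X : 𝒱.Obj) (n : ℤ) : Prop := ∀ t : T.M X, T.Deg n t → t = 0

/-- There are finitely many cycles `D j` on `X` with linearly independent classes such that for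
all theories `T` with the properties `IsFrobeniusTheory`, `T (X × V)` is the direct sum of the
`D j × T (V)`. -/
def Decomposes (H : WeilTheoryData.{0, 0, 0} A K) (F : ∀ X : 𝒱.Obj, X ⟶ X) (q : ℕ)
    (X V : 𝒱.Obj) : Prop :=
  ∃ (J : Type) (_ : Fintype J) (deg : J → ℕ) (D : J → A.A X), (∀ j, A.Deg (deg j) (D j)) ∧
    LinearIndependent K (fun j => H.cl (D j)) ∧
    ∀ T : MotivicData A, IsFrobeniusTheory T F q → HasKunneth T X V deg D

/-- The conclusions for the product `V` of the `X i` with `i ∈ L` and of `Z`. -/
structure Conclusions (H : WeilTheoryData.{0, 0, 0} A K) (F : ∀ X : 𝒱.Obj, X ⟶ X) (q : ℕ)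
    {ι : Type} (X : ι → 𝒱.Obj) (Z : 𝒱.Obj) (L : List ι) : Prop where
  torsion : ∀ (T : MotivicData A), IsFrobeniusTheory T F q → ∀ (G : 𝒱.Obj → Type)
    [∀ X, AddCommGroup (G X)], IsKTheory T G →
    (IsTorsionGroup (G (productOf X Z L)) ↔ IsTorsionGroup (G Z))
  vanishes : ∀ (T : MotivicData A), IsFrobeniusTheory T F q → ∀ n : ℤ,
    VanishesIn T (productOf X Z L) n ↔
      ∀ l : ℤ, n - dimension X L ≤ l → l ≤ n → VanishesIn T Z l
  decomposes : ∀ i, i ∉ L → Decomposes H F q (X i) (productOf X Z L)

theorem vanishesIn_iff (T : MotivicData A) (X : 𝒱.Obj) (n : ℤ) :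
    VanishesIn T X n ↔ (toCorr T).gr X n = ⊥ :=
  ⟨fun h => (Submodule.eq_bot_iff _).2 fun t ht => h t ht,
    fun h t ht => (Submodule.eq_bot_iff _).1 h t ht⟩

theorem torsion_iff {T : MotivicData A} {G : 𝒱.Obj → Type} [∀ X, AddCommGroup (G X)]
    (h : IsKTheory T G) (X : 𝒱.Obj) :
    IsTorsionGroup (G X) ↔ ∀ n, (toCorr T).gr X n = ⊥ := by
  obtain ⟨r, hr1, hr2⟩ := h.rational X
  constructor
  · intro ht n
    have h0 : ∀ t : T.M X, t = 0 := ?_
    · exact (Submodule.eq_bot_iff _).2 fun t _ => h0 t
    intro t
    obtain ⟨k, x, hk, hx⟩ := hr2 t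
    obtain ⟨m, hm, hmx⟩ := isOfFinAddOrder_iff_nsmul_eq_zero.1 (ht x)
    have h1 : m • k • t = 0 := by rw [← hx, ← map_nsmul, hmx, map_zero]
    rw [← Nat.cast_smul_eq_nsmul ℚ, ← Nat.cast_smul_eq_nsmul ℚ, smul_smul] at h1
    refine (smul_eq_zero.1 h1).resolve_left ?_
    exact mul_ne_zero (by exact_mod_cast hm.ne') (by exact_mod_cast hk.ne')
  · intro hv x
    apply hr1
    have h1 : (⨆ n, T.gr X n) = ⊥ := by
      rw [eq_bot_iff]
      exact iSup_le fun n => (hv n).le
    rw [h.adams X] at h1
    have h2 : r x ∈ (⊤ : Submodule ℚ (T.M X)) := Submodule.mem_top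
    rw [h1] at h2
    exact (Submodule.mem_bot _).1 h2

end geometry

/-- **Parshin's conjecture for products with cyclic coverings branched along hyperplanes.** -/
theorem result (c : ℕ) [Fact c.Prime] (κ : Type) [Field κ] [Fintype κ] [CharP κ c] {ι : Type}
    (C : ι → Covering κ) (f N lam : ℕ) (hC : IsSmallSystem C c f N lam)
    {𝒱 : VarClass κ} (A : TheoryData.{0, 0, 0} 𝒱 ℚ) [IsChow A] {K : Type} [Field K]
    [IsAlgClosed K] [CharZero K] (H : WeilTheoryData.{0, 0, 0} A K) [IsWeil H] (τ : K →+* ℂ)
    (F : ∀ X : 𝒱.Obj, X ⟶ X) (X : ι → 𝒱.Obj) (Z : 𝒱.Obj)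
    (h : IsCoveringSystem C N lam H τ F X Z) (L : List ι) (hL : L.Nodup) :
    Conclusions H F (Fintype.card κ) X Z L := by
  obtain ⟨hf, hC, hN, hdN, hsmall⟩ := hC
  obtain ⟨hstd, hfrob, hprod, hmodel, hpol, hbase, hnil⟩ := h
  have hfin := hstd.finite
  have hf0 : 0 < f := by
    rcases Nat.eq_zero_or_pos f with h | h
    · rw [h, pow_zero] at hf
      have := Fintype.one_lt_card (α := κ)
      omega
    · exact h
  choose g T hσT hgT hT hcov hpure using hmodel
  have hsmall' : ∀ I : Finset ι, I.Nonempty → Pool.Agent.N876.UV.SmallI c f N lam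
      (fun i => (C i).N) (fun i => (C i).n) (fun i => (C i).s) (fun i => (C i).a) I := by
    intro I hI j hj
    obtain ⟨u, hu, hlt⟩ := hsmall I hI j hj
    refine ⟨u, hu, Pool.Agent.N876.UV.weight_conv' hf0 hN hdN I
      (fun i => ∑ k, ∑ t ∈ range f, (u * j i * (C i).a k * c ^ t) % (C i).N) ?_⟩
    refine lt_of_le_of_lt (le_of_eq ?_) hlt
    congr 1
    refine sum_congr rfl fun i _ => ?_
    unfold Covering.weight
    push_cast
    rfl
  have hcov' : ∀ i, Pool.Agent.N876.TC.IsCov (C i).N (C i).l (C i).a (C i).z
      ((ofHom (H.pull (F (X i)))).restrict (hσT i)) ((ofHom (H.pull (g i))).restrict (hgT i)) :=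
    fun i => ⟨(hcov i).commute, (hcov i).order, (hcov i).invariants,
      fun L _ _ _ t => (hcov i).lefschetz L t⟩
  have hres : ∀ SZ, Pool.Agent.N876.FL.OtherOK τ (Fintype.card κ) N lam SZ →
      Pool.Agent.N876.FL.NoResF (Fintype.card κ : K)
        (fun i => {α | Module.End.HasEigenvalue
          ((ofHom (H.pull (F (X i)))).restrict (hσT i)) α}) SZ :=
    fun SZ hSZ => Pool.Agent.N876.FL.nores_cov hN (fun i => (hC i).two_le) hdN κ hf
      (fun i => (hC i).root) (fun i => (C i).l) (fun i => (C i).a) (fun i => (hC i).coprime) τ
      hcov' hsmall' hpure hSZ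
  have htw : ∀ L : List ι, productOf X Z L = Pool.Agent.N876.CG.tw X Z L := by
    intro L
    induction L with
    | nil => rfl
    | cons i L ih => rw [productOf, Pool.Agent.N876.CG.tw, ih]
  have hdim : ∀ L : List ι, dimension X L = Pool.Agent.N876.CG.dims X L := by
    intro L
    induction L with
    | nil => rfl
    | cons i L ih => rw [dimension, Pool.Agent.N876.CG.dims, ih]
  have hsys : Pool.Agent.N876.CG.Cs H F (Fintype.card κ) X Z
      (fun i => {α | Module.End.HasEigenvalue
          ((ofHom (H.pull (F (X i)))).restrict (hσT i)) α}) :=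
    { std := isStandard_bridge hstd
      one_lt := Fintype.one_lt_card
      frob := fun X => isFrobenius_bridge (hfrob X)
      prod := hprod
      cg := fun i => ⟨T i, hσT i, hT i, fun α hα => hα⟩
      int := fun i α hα => Pool.Agent.N876.CG.int_cov hN (fun i => (hC i).two_le) hdN κ hf
        (fun i => (hC i).root) (fun i => (C i).l) (fun i => (C i).a) (fun i => (hC i).coprime) τ
        hcov' hsmall' hpure i α hα
      intZ := fun β hβ => Pool.Agent.N876.CG.integral_of_emb τ (hbase.1 _ ⟨β, hβ, rfl⟩).1
      res := by
        refine hres _ ⟨?_, ?_⟩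
        · intro β hβ
          exact hbase.1 _ ⟨β, hβ, rfl⟩
        · rcases hbase.2 with h | h
          · exact Or.inl h
          · exact Or.inr fun β hβ => h _ ⟨β, hβ, rfl⟩
      res1 := hres _ (Pool.Agent.N876.FL.otherOK_one τ _ _ _)
      nil := fun L => by rw [← htw L]; exact nilpotence_bridge (hnil L) }
  have hcorr : ∀ T : MotivicData A, IsFrobeniusTheory T F (Fintype.card κ) →
      Pool.Agent.W484.CH.IsCorrTheory (toCorr T) ∧
        ∀ X, Pool.Agent.W484.CH.ActsAsPower (toCorr T) (F X) (Fintype.card κ) :=
    fun T hT => ⟨toCorr_isCorrTheory hT.motivic, fun X => toCorr_actsAsPower (hT.power X)⟩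
  have hv : ∀ T : MotivicData A, IsFrobeniusTheory T F (Fintype.card κ) → ∀ n : ℤ,
      (toCorr T).gr (productOf X Z L) n = ⊥ ↔
        ∀ l : ℤ, n - dimension X L ≤ l → l ≤ n → (toCorr T).gr Z l = ⊥ := by
    intro T hT n
    rw [htw L, hdim L]
    exact hsys.vanish_tw hpol hL (hcorr T hT).1 (hcorr T hT).2 n
  refine ⟨fun T hT G _ hG => ?_, fun T hT n => ?_, fun i hi => ?_⟩
  · rw [torsion_iff hG, torsion_iff hG]
    constructor
    · intro h1 n
      exact (hv T hT n).1 (h1 n) n (by omega) le_rfl
    · intro h1 n
      exact (hv T hT n).2 fun l _ _ => h1 l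
  · rw [vanishesIn_iff, hv T hT n]
    exact forall_congr' fun l => imp_congr_right fun _ => imp_congr_right fun _ =>
      (vanishesIn_iff T Z l).symm
  · rw [htw L]
    obtain ⟨J, hJ, deg, D, E, h1, h2, h3⟩ := hsys.step hi hL
    refine ⟨J, hJ, deg, D, h1.left, ?_, fun T hT => ?_⟩
    · exact Pool.Agent.N876.CG.linearIndependent_of_dual (isStandard_bridge hstd) h1
    · exact h3 _ (hcorr T hT).1 (hcorr T hT).2

end Pool.Agent.Results.MP_27fd67_ag.HyperplaneCoverings
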