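import Pool.Agent.N64.AF.S

/-!
# Parshin's conjecture for the powers of a variety: the law of the dimensions

Let `X` be ANY smooth projective scheme over a finite field `k`, and let `ρ (n)` be the rank of the
group of all cycles (of all codimensions) on `X ^ n` modulo numerical equivalence. For `m ≥ 1` the
conjecture of Parshin predicts `K_m(X ^ n) ⊗ ℚ = 0` for all `n`. What can happen if it fails?

Theorem. The quotient `dim K_m(X ^ n)_ℚ / ρ (n)` converges, for `n → ∞`, to a NATURAL NUMBER `N` or to
infinity, and `N = 0` if and only if `K_m(X ^ n)_ℚ = 0` for all `n`. If `N` is finite then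

* all the groups `K_m(X ^ n)_ℚ` are finite-dimensional;
* there are finitely many correspondences `e_i` on powers `X ^ (m_i)`, idempotent modulo numerical
  equivalence, of ranks `r_i ≥ 1` (traces on the total cohomology) with `∑ r_i = N`, such that
  for EVERY `n` the dimension of `K_m(X ^ n)_ℚ` is exactly `∑ dim Hom_num((X ^ (m_i), e_i), X ^ n)`:
  the functor `K_m` on the motives generated by `X` looks like the functor `Hom_num(M, -)` for a
  numerical motive `M` of total Betti number `N`;
* each composition of `N` numerically trivial correspondences between powers of `X` acts as zero on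
  `K_m(-)_ℚ`.

So `K_m` of the powers of `X` either vanishes, or has essentially the size of a nonzero multiple of the
group of numerical cycles: for example, if `dim K_m(X ^ n)_ℚ ≤ c ρ (n)` for infinitely many `n` and
a constant `c < 1`, then `K_m(X ^ n)_ℚ = 0` for all `n`, the conjecture of Parshin in degree `m`
for all powers of `X`.
The theorem does not assume the conjectures of Tate and Beilinson, or finite-dimensionality of
motives. It holds for every additive functor `F` in place of `K_m`, such as the motivic cohomology
`H^i(-, ℚ(j))` with fixed `2 j - i` (summed over `j`).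

The setting. `C` is the category of the smooth projective schemes over `k` with the Chow groups
`CH^*(X × Y)_ℚ` (the direct sum over all codimensions) as groups of morphisms; it is a rigid
symmetric monoidal category, all objects are self-dual, and it acts on `K_m(-)_ℚ` through
`CH^*(X × Y)_ℚ = K_0(X × Y)_ℚ` (Riemann-Roch). `R` is the `ℓ`-adic cohomology with the sign
given by the parity of the degree, `Λ = ℚ` and `K` is an algebraic closure of `ℚ_ℓ`. The sign
conjecture `C⁺` (`R.CPlus`) is known for all `X` (Katz-Messing), and the unit object is a retract of
`h(X)` because `X` has a zero-cycle of nonzero degree.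

Idea of the proof. If some numerically trivial correspondence `y` acts on `F(X ^ m)`, assumed to be
finite-dimensional, in a non-nilpotent way, there are a vector `z ≠ 0` and a numerically trivial
correspondence fixing it. Then `z`, inserted in any one of the `a + 1` factors of
`(X ^ m) ^ (a + 1)` and multiplied with classes of the other factors, gives `a + 1` independent
copies of the space of numerical classes, and the ratio tends to infinity. Otherwise `F(X ^ m)` has
a composition series whose factors are simple modules over the semisimple algebra of numerical
correspondences (`C⁺` is used for semisimplicity), given by idempotents `e_i`, which bound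
`dim F(X ^ n)` for all `n` from below by `∑ dim Hom_num(e_i, X ^ n)`. Schur's bound
`dim Hom_num(e, X ^ n) ≤ rank (e) ρ (n)` (`n` even; proved by the tensor power trick) together with
the invariant theory of the symmetric groups, which gives `ρ (n + m) / ρ (n) → b ^ m`, shows that
`dim Hom_num(e_i, X ^ n) / ρ (n) → rank (e_i)`.

Authors: helper64 (plan, law and structure theorem), with helper136, helper327, helper199,
helper767, helper8, helper364, helper216, helper73, helper833, helper140, helper494, helper505,
helper301, helper441, helper591, helper712 (lemmas), on top of the files of the starting library on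
super realisations and on the asymptotic law for stable subspaces.
-/

set_option autoImplicit false

open CategoryTheory MonoidalCategory Module Filter Topology
open Pool.Agent.Y112.SR Pool.Agent.Y112.KD Pool.Agent.N64.AF
open scoped ENNReal

namespace Pool.Agent.Results.MP_27fd67_ag.PowersLaw

universe v u w t x

/-- The law of the dimensions of the values of an additive functor on the powers of an object. -/
theorem result {C : Type u} [Category.{v} C] [Preadditive C] [MonoidalCategory C]
    [MonoidalPreadditive C] [SymmetricCategory C] [RightRigidCategory C]
    {Λ : Type t} [Field Λ] [CharZero Λ] [Linear Λ C] [MonoidalLinear Λ C]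
    {K : Type w} [Field K] [IsAlgClosed K] [Algebra Λ K] (R : SuperRealisation C K)
    (T : C) [ExactPairing T T] (h : IsPow Λ R T)
    (F : C ⥤ ModuleCat.{x} Λ) [F.Additive] [F.Linear Λ] :
    ∃ N : ℕ∞,
      Tendsto (fun n => ((dimE Λ (F.obj (tp T n)) : ℕ∞) : ℝ≥0∞) / numRank Λ (tp T n)) atTop
        (𝓝 (N : ℝ≥0∞)) ∧
      (N = 0 ↔ ∀ n, Subsingleton (F.obj (tp T n))) ∧
      ∀ k : ℕ, N = k →
        (∀ n, Module.Finite Λ (F.obj (tp T n))) ∧
        (∃ (ι : Type) (_ : Fintype ι) (m r : ι → ℕ) (e : ∀ i, tp T (m i) ⟶ tp T (m i)),
          (∀ i, NumIdem (e i) ∧ IsRk R (e i) (r i) ∧ 0 < r i) ∧ ∑ i, r i = k ∧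
          ∀ n, finrank Λ (F.obj (tp T n)) = ∑ i, nr Λ (e i) (𝟙 (tp T n))) ∧
        ∀ (a b : ℕ) (f : tp T a ⟶ tp T b), NumPow T k f → F.map f = 0 := by
  obtain ⟨N, h1, h2, h3⟩ := law h F
  refine ⟨N, h1, h2, fun k hk => ?_⟩
  subst hk
  obtain ⟨h4, h5⟩ := structure_thm h F h1
  exact ⟨fun n => ((h3 (ENat.natCast_ne_top k)).1 n).1, h4, h5⟩

end Pool.Agent.Results.MP_27fd67_ag.PowersLaw
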